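import Mathlib

/-!
# The two ultrafilter exponentiations never coincide on the diagonal (MP_d3b762_co)

For every nonprincipal ultrafilter `p` on the positive integers, `E1 p p ≠ E2 p p`.
The two ultrafilters are separated by the parity of the position of a number with respect to one of
the two towers `2, 2^2, 2^(2^2), ...` and `3, 2^3, 2^(2^3), ...`.
-/

namespace Pool.Agent.Results.MP_d3b762_co.NoDiagonal

open Filter Set

/-- The first exponentiation: `A ∈ E1 p q ↔ {n | {m | n ^ m ∈ A} ∈ q} ∈ p`. -/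
def E1 (p q : Ultrafilter ℕ+) : Ultrafilter ℕ+ := p.bind fun n => q.map fun m : ℕ+ => n ^ (m : ℕ)

/-- The second exponentiation: `A ∈ E2 p q ↔ {n | {m | m ^ n ∈ A} ∈ q} ∈ p`. -/
def E2 (p q : Ultrafilter ℕ+) : Ultrafilter ℕ+ := p.bind fun n => q.map fun m : ℕ+ => m ^ (n : ℕ)

theorem mem_E1 (p q : Ultrafilter ℕ+) (A : Set ℕ+) :
    A ∈ E1 p q ↔ {n : ℕ+ | {m : ℕ+ | n ^ (m : ℕ) ∈ A} ∈ q} ∈ p := Iff.rfl

theorem mem_E2 (p q : Ultrafilter ℕ+) (A : Set ℕ+) :
    A ∈ E2 p q ↔ {n : ℕ+ | {m : ℕ+ | m ^ (n : ℕ) ∈ A} ∈ q} ∈ p := Iff.rfl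

/-- The tower starting at `a`. -/
def tower (a : ℕ) : ℕ → ℕ
  | 0 => a
  | n + 1 => 2 ^ tower a n

theorem tower_lt_succ (a n : ℕ) : tower a n < tower a (n + 1) := Nat.lt_two_pow_self

theorem tower_strictMono (a : ℕ) : StrictMono (tower a) := strictMono_nat_of_lt_succ (tower_lt_succ a)

theorem le_tower (a n : ℕ) : n ≤ tower a n := (tower_strictMono a).le_apply

theorem tower_lt_tower {a b : ℕ} (h : a < b) (n : ℕ) : tower a n < tower b n := by
  induction n with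
  | zero => exact h
  | succ n ih => exact Nat.pow_lt_pow_right (by norm_num) ih

theorem tower_gap {a b : ℕ} (h : a < b) (n : ℕ) :
    (tower a (n + 3)) ^ (tower a (n + 2)) ≤ tower b (n + 3) := by
  have h0 : tower a n + 1 ≤ tower b n := tower_lt_tower h n
  have h1 : 2 * tower a (n + 1) ≤ tower b (n + 1) := by
    show 2 * 2 ^ tower a n ≤ 2 ^ tower b n
    rw [← pow_succ']
    exact Nat.pow_le_pow_right (by norm_num) h0
  have h2 : tower a (n + 2) * tower a (n + 2) ≤ tower b (n + 2) := by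
    show 2 ^ tower a (n + 1) * 2 ^ tower a (n + 1) ≤ 2 ^ tower b (n + 1)
    rw [← pow_add]
    exact Nat.pow_le_pow_right (by norm_num) (by omega)
  show (2 ^ tower a (n + 2)) ^ (tower a (n + 2)) ≤ 2 ^ tower b (n + 2)
  rw [← pow_mul]
  exact Nat.pow_le_pow_right (by norm_num) h2

theorem tower_gap' {a b : ℕ} (h : a < b) (N k : ℕ) (hk : N + 3 ≤ k) (hN : 0 < N) :
    (tower a k) ^ N ≤ tower b k := by
  obtain ⟨n, rfl⟩ : ∃ n, k = n + 3 := ⟨k - 3, by omega⟩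
  refine le_trans ?_ (tower_gap h n)
  have h1 : N ≤ tower a (n + 2) := by
    have := le_tower a (n + 2)
    omega
  have h2 : 0 < tower a (n + 3) := by
    have := le_tower a (n + 3)
    omega
  exact Nat.pow_le_pow_right h2 h1

theorem tower_shift (n : ℕ) : tower 2 (n + 1) = tower 4 n := by
  induction n with
  | zero => rfl
  | succ n ih =>
    show 2 ^ tower 2 (n + 1) = 2 ^ tower 4 n
    rw [ih]

/-- The two towers cannot both have an element in `(m, m ^ N]` when `m` is large. -/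
theorem no_both (N : ℕ) (hN : 0 < N) : ∃ M : ℕ, ∀ m, M ≤ m → ¬ ((∃ j, m < tower 2 j ∧
    tower 2 j ≤ m ^ N) ∧ (∃ i, m < tower 3 i ∧ tower 3 i ≤ m ^ N)) := by
  refine ⟨tower 3 (N + 3), fun m hm ⟨⟨j, hj1, hj2⟩, ⟨i, hi1, hi2⟩⟩ => ?_⟩
  have hi : N + 3 ≤ i := by
    have : tower 3 (N + 3) < tower 3 i := lt_of_le_of_lt hm hi1
    exact ((tower_strictMono 3).lt_iff_lt.1 this).le
  have hj : N + 3 ≤ j := by
    have h1 : tower 2 (N + 3) < tower 3 (N + 3) := tower_lt_tower (by norm_num) _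
    have h2 : tower 2 (N + 3) < tower 2 j := h1.trans (lt_of_le_of_lt hm hj1)
    exact ((tower_strictMono 2).lt_iff_lt.1 h2).le
  rcases le_or_gt j i with h | h
  · have h1 : tower 2 j ^ N ≤ tower 3 j := tower_gap' (by norm_num) N j hj hN
    have h2 : tower 3 j ≤ tower 3 i := (tower_strictMono 3).monotone h
    have h3 : m ^ N < tower 2 j ^ N := Nat.pow_lt_pow_left hj1 hN.ne'
    omega
  · have h1 : tower 3 i ^ N ≤ tower 4 i := tower_gap' (by norm_num) N i hi hN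
    rw [← tower_shift] at h1
    have h2 : tower 2 (i + 1) ≤ tower 2 j := (tower_strictMono 2).monotone h
    have h3 : m ^ N < tower 3 i ^ N := Nat.pow_lt_pow_left hi1 hN.ne'
    omega

/-- The position of `x` with respect to the tower starting at `a` is `j`. -/
def Pos (a x j : ℕ) : Prop := tower a j ≤ x ∧ x < tower a (j + 1)

theorem Pos.unique {a x i j : ℕ} (h : Pos a x i) (h' : Pos a x j) : i = j := by
  have h1 : i < j + 1 := (tower_strictMono a).lt_iff_lt.1 (lt_of_le_of_lt h.1 h'.2)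
  have h2 : j < i + 1 := (tower_strictMono a).lt_iff_lt.1 (lt_of_le_of_lt h'.1 h.2)
  omega

theorem exists_pos {a x : ℕ} (h : a ≤ x) : ∃ j, Pos a x j := by
  have hex : ∃ j, x < tower a j := ⟨x + 1, lt_of_lt_of_le (Nat.lt_succ_self x) (le_tower a (x + 1))⟩
  classical
  have h0 : Nat.find hex ≠ 0 := by
    intro h0
    have := Nat.find_spec hex
    rw [h0] at this
    exact absurd h (not_le.2 this)
  obtain ⟨k, hk⟩ := Nat.exists_eq_succ_of_ne_zero h0
  refine ⟨k, ?_, ?_⟩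
  · by_contra hlt
    have := Nat.find_min' hex (not_le.1 hlt)
    omega
  · have := Nat.find_spec hex
    rwa [hk] at this

/-- The set of numbers with even position. -/
def Ev (a : ℕ) : Set ℕ+ := {x | ∃ j, Even j ∧ Pos a x j}

theorem mem_Ev {a : ℕ} {x : ℕ+} {j : ℕ} (h : Pos a x j) : x ∈ Ev a ↔ Even j :=
  ⟨fun ⟨i, hi, hp⟩ => h.unique hp ▸ hi, fun hj => ⟨j, hj, h⟩⟩

/-- For one of the towers, all intervals `(m, m ^ n]` are avoided. -/
theorem key {a : ℕ} (ha : 2 ≤ a) (p : Ultrafilter ℕ+) (hp : ∀ n : ℕ+, {m | n < m} ∈ p)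
    (hgood : ∀ N : ℕ, {m : ℕ+ | ¬ ∃ j, (m : ℕ) < tower a j ∧ tower a j ≤ (m : ℕ) ^ N} ∈ p) :
    E1 p p ≠ E2 p p := by
  intro heq
  -- `E2`: membership in `Ev` is preserved
  have h2 : ∀ n : ℕ+, ∀ᶠ m in (p : Filter ℕ+), (m ^ (n : ℕ) ∈ Ev a ↔ m ∈ Ev a) := by
    intro n
    filter_upwards [hgood n, hp ⟨a, by omega⟩] with m hm hma
    have hma' : a ≤ (m : ℕ) := le_of_lt hma
    obtain ⟨j, hj⟩ := exists_pos hma'
    have hj' : Pos a ((m ^ (n : ℕ) : ℕ+) : ℕ) j := by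
      rw [PNat.pow_coe]
      refine ⟨hj.1.trans (Nat.le_self_pow n.ne_zero _), ?_⟩
      by_contra hcon
      exact hm ⟨j + 1, hj.2, not_lt.1 hcon⟩
    rw [mem_Ev hj, mem_Ev hj']
  have h1 : ∀ n : ℕ+, 1 < n → ∀ᶠ m : ℕ+ in (p : Filter ℕ+), (n ^ (m : ℕ) ∈ Ev a ↔ m ∉ Ev a) := by
    intro n hn1
    filter_upwards [hgood 2, hp ⟨a, by omega⟩, hp n] with m hm hma hnm
    have hma' : a ≤ (m : ℕ) := le_of_lt hma
    have hnm' : (n : ℕ) < m := hnm
    have hn1' : 1 < (n : ℕ) := hn1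
    obtain ⟨j, hj⟩ := exists_pos hma'
    have hj' : Pos a ((n ^ (m : ℕ) : ℕ+) : ℕ) (j + 1) := by
      rw [PNat.pow_coe]
      constructor
      · show 2 ^ tower a j ≤ _
        calc 2 ^ tower a j ≤ 2 ^ (m : ℕ) := Nat.pow_le_pow_right (by norm_num) hj.1
          _ ≤ (n : ℕ) ^ (m : ℕ) := Nat.pow_le_pow_left hn1' _
      · show _ < 2 ^ tower a (j + 1)
        have h3 : (m : ℕ) ^ 2 < tower a (j + 1) := by
          by_contra hcon
          exact hm ⟨j + 1, hj.2, not_lt.1 hcon⟩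
        calc (n : ℕ) ^ (m : ℕ) ≤ (2 ^ (m : ℕ)) ^ (m : ℕ) :=
              Nat.pow_le_pow_left (hnm'.le.trans (Nat.lt_two_pow_self).le) _
          _ = 2 ^ ((m : ℕ) ^ 2) := by rw [← pow_mul, sq]
          _ < 2 ^ tower a (j + 1) := Nat.pow_lt_pow_right (by norm_num) h3
    rw [mem_Ev hj, mem_Ev hj', Nat.even_add_one]
  -- conclusion
  have hE2 : Ev a ∈ E2 p p ↔ Ev a ∈ p := by
    rw [mem_E2]
    constructor
    · intro h
      obtain ⟨n, hn⟩ := p.nonempty_of_mem h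
      have hn' : {m : ℕ+ | m ^ (n : ℕ) ∈ Ev a} ∈ p := hn
      filter_upwards [hn', h2 n] with m hm hm2
      exact hm2.1 hm
    · intro h
      refine mem_of_superset univ_mem fun n _ => ?_
      show {m : ℕ+ | m ^ (n : ℕ) ∈ Ev a} ∈ p
      filter_upwards [h, h2 n] with m hm hm2
      exact hm2.2 hm
  have hE1 : Ev a ∈ E1 p p ↔ Ev a ∉ p := by
    rw [mem_E1]
    constructor
    · intro h
      obtain ⟨n, hn, hn1⟩ := p.nonempty_of_mem (inter_mem h (hp 1))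
      have hn' : {m : ℕ+ | n ^ (m : ℕ) ∈ Ev a} ∈ p := hn
      intro hEv
      obtain ⟨m, ⟨hm1, hm2⟩, hm3⟩ := p.nonempty_of_mem (inter_mem (inter_mem hn' (h1 n hn1)) hEv)
      exact (hm2.1 hm1) hm3
    · intro h
      have hc : (Ev a)ᶜ ∈ p := (Ultrafilter.compl_mem_iff_notMem).2 h
      filter_upwards [hp 1] with n hn
      show {m : ℕ+ | n ^ (m : ℕ) ∈ Ev a} ∈ p
      filter_upwards [hc, h1 n hn] with m hm hm2
      exact hm2.2 hm
  rw [← heq, hE1] at hE2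
  tauto

/-- For every nonprincipal ultrafilter `p` on the positive integers, `E1 p p ≠ E2 p p`. -/
theorem result : ∀ p : Ultrafilter ℕ+, (∀ n : ℕ+, p ≠ pure n) → E1 p p ≠ E2 p p := by
  intro p hp
  have hlarge : ∀ n : ℕ+, {m | n < m} ∈ p := by
    intro n
    by_contra hcon
    have h1 : {m | n < m}ᶜ ∈ p := (Ultrafilter.compl_mem_iff_notMem).2 hcon
    have h2 : ({m : ℕ+ | n < m}ᶜ : Set ℕ+).Finite := by
      have : ({m : ℕ+ | n < m}ᶜ : Set ℕ+) = Set.Iic n := by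
        ext m
        show ¬ n < m ↔ m ≤ n
        exact not_lt
      rw [this]
      exact Set.finite_Iic n
    obtain ⟨q, -, hq⟩ := Ultrafilter.eq_pure_of_finite_mem h2 h1
    exact hp q hq
  by_cases h2 : ∀ N : ℕ, {m : ℕ+ | ¬ ∃ j, (m : ℕ) < tower 2 j ∧ tower 2 j ≤ (m : ℕ) ^ N} ∈ p
  · exact key (by norm_num) p hlarge h2
  by_cases h3 : ∀ N : ℕ, {m : ℕ+ | ¬ ∃ j, (m : ℕ) < tower 3 j ∧ tower 3 j ≤ (m : ℕ) ^ N} ∈ p
  · exact key (by norm_num) p hlarge h3
  exfalso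
  push Not at h2 h3
  obtain ⟨N, hN⟩ := h2
  obtain ⟨N', hN'⟩ := h3
  have h2' := (Ultrafilter.compl_mem_iff_notMem).2 hN
  have h3' := (Ultrafilter.compl_mem_iff_notMem).2 hN'
  set R := max (max N N') 1 with hR
  have hR1 : 0 < R := by omega
  obtain ⟨M, hM⟩ := no_both R hR1
  obtain ⟨m, ⟨hm1, hm2⟩, hm3⟩ :=
    p.nonempty_of_mem (inter_mem (inter_mem h2' h3') (hlarge ⟨M + 1, by omega⟩))
  have hm3' : M + 1 < (m : ℕ) := hm3
  refine hM m (by omega) ⟨?_, ?_⟩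
  · have : ¬ ∀ j, (m : ℕ) < tower 2 j → (m : ℕ) ^ N < tower 2 j := hm1
    push Not at this
    obtain ⟨j, hj1, hj2⟩ := this
    exact ⟨j, hj1, hj2.trans (Nat.pow_le_pow_right m.pos (by omega))⟩
  · have : ¬ ∀ j, (m : ℕ) < tower 3 j → (m : ℕ) ^ N' < tower 3 j := hm2
    push Not at this
    obtain ⟨j, hj1, hj2⟩ := this
    exact ⟨j, hj1, hj2.trans (Nat.pow_le_pow_right m.pos (by omega))⟩

end Pool.Agent.Results.MP_d3b762_co.NoDiagonal
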